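import Pool.Agent.H47.ST.Targets

namespace Pool.Agent.H27.STK

open Finset Pool.Agent.H47.ST

/-- prefix condition after a word with the counts `f` -/
def LA (f : ℕ → ℕ) (l : List ℕ) : Prop :=
  ∀ u v, l = u ++ v → ∀ c, f (c + 1) + u.count (c + 1) ≤ f c + u.count c

theorem LA_append {f : ℕ → ℕ} {l1 l2 : List ℕ} (h1 : LA f l1)
    (h2 : LA (fun c => f c + l1.count c) l2) : LA f (l1 ++ l2) := by
  intro u v h c
  rcases List.append_eq_append_iff.1 h with ⟨a, ha, hb⟩ | ⟨a, ha, hb⟩
  · have := h2 a v hb c
    rw [ha, List.count_append, List.count_append]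
    simp only at this
    omega
  · exact h1 u a ha c

theorem LA_bulk {f : ℕ → ℕ} {l : List ℕ} (h : ∀ c, f (c + 1) + l.count (c + 1) ≤ f c) :
    LA f l := by
  intro u v huv c
  have h1 : u.count (c + 1) ≤ l.count (c + 1) := by
    rw [huv, List.count_append]; omega
  have := h c
  omega

theorem lat_iff (l : List ℕ) : lat l ↔ LA (fun _ => 0) l := by
  unfold lat LA
  simp

theorem lat_append {l1 l2 : List ℕ} (h1 : lat l1) (h2 : LA (fun c => l1.count c) l2) :
    lat (l1 ++ l2) := by
  rw [lat_iff] at h1 ⊢
  refine LA_append h1 ?_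
  simpa using h2

/-- the buffer -/
def buf (L R : ℕ) : ℕ → List ℕ
  | 0 => []
  | m + 1 => buf L R m ++ List.replicate (L * (R - 1 - m)) m

theorem count_buf (L R m c : ℕ) : (buf L R m).count c = if c < m then L * (R - 1 - c) else 0 := by
  induction m with
  | zero => simp [buf]
  | succ m ih =>
    rw [buf, List.count_append, ih, List.count_replicate]
    by_cases h1 : c < m
    · have h2 : ¬ (m = c) := by omega
      have h3 : c < m + 1 := by omega
      simp [h1, h2, h3]
    · by_cases h2 : m = c
      · subst h2; simp
      · have h3 : ¬ c < m + 1 := by omega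
        simp [h1, h2, h3]

theorem lat_buf (L R m : ℕ) : lat (buf L R m) := by
  induction m with
  | zero =>
    intro u v h c
    have : u = [] := by
      have h' : u ++ v = [] := h.symm
      exact (List.append_eq_nil_iff.1 h').1
    subst this; simp
  | succ m ih =>
    rw [buf]
    refine lat_append ih (LA_bulk ?_)
    intro c
    rw [count_buf, count_buf, List.count_replicate]
    have h0 : L * (R - 1 - (c + 1)) ≤ L * (R - 1 - c) := Nat.mul_le_mul_left _ (by omega)
    by_cases h1 : c + 1 < m
    · have h2 : ¬ (m = c + 1) := by omega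
      have h3 : c < m := by omega
      simp only [h1, h3, if_true, beq_iff_eq, h2, if_false]
      omega
    · by_cases h2 : m = c + 1
      · subst h2
        simp only [lt_irrefl, if_false, beq_self_eq_true, if_true, Nat.lt_succ_self]
        omega
      · have h3 : ¬ c < m := by omega
        simp [h1, h2, h3]

/-- the completion -/
def comp (L : ℕ) : ℕ → List ℕ
  | 0 => []
  | m + 1 => comp L m ++ List.replicate (L * m) m

theorem count_comp (L m c : ℕ) : (comp L m).count c = if c < m then L * c else 0 := by
  induction m with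
  | zero => simp [comp]
  | succ m ih =>
    rw [comp, List.count_append, ih, List.count_replicate]
    by_cases h1 : c < m
    · have h2 : ¬ (m = c) := by omega
      have h3 : c < m + 1 := by omega
      simp [h1, h2, h3]
    · by_cases h2 : m = c
      · subst h2; simp
      · have h3 : ¬ c < m + 1 := by omega
        simp [h1, h2, h3]

theorem LA_comp (L R N : ℕ) (f : ℕ → ℕ)
    (hf : ∀ c, f c = if c < R then L * (R - 1 - c) + L * N else 0) (m : ℕ) (hm : m ≤ R) :
    LA f (comp L m) := by
  induction m with
  | zero =>
    intro u v h c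
    have : u = [] := by
      have h' : u ++ v = [] := h.symm
      exact (List.append_eq_nil_iff.1 h').1
    subst this
    rw [hf, hf]
    by_cases h1 : c + 1 < R
    · have h2 : c < R := by omega
      have h0 : L * (R - 1 - (c + 1)) ≤ L * (R - 1 - c) := Nat.mul_le_mul_left _ (by omega)
      simp only [h1, h2, if_true, List.count_nil]
      omega
    · simp [h1]
  | succ m ih =>
    rw [comp]
    refine LA_append (ih (by omega)) (LA_bulk ?_)
    intro c
    simp only [hf, count_comp, List.count_replicate, beq_iff_eq]
    by_cases h1 : c + 1 < R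
    · have h2 : c < R := by omega
      simp only [h1, h2, if_true]
      obtain ⟨d, hd⟩ : ∃ d, R = c + 1 + 1 + d := ⟨R - (c + 1 + 1), by omega⟩
      have e1 : R - 1 - (c + 1) = d := by omega
      have e2 : R - 1 - c = d + 1 := by omega
      rw [e1, e2]
      have e3 : L * (d + 1) = L * d + L := by ring
      have e4 : L * (c + 1) = L * c + L := by ring
      by_cases h3 : c + 1 < m
      · have h4 : ¬ (m = c + 1) := by omega
        have h5 : c < m := by omega
        simp only [h3, h4, h5, if_true, if_false]
        omega
      · by_cases h4 : m = c + 1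
        · subst h4
          simp only [lt_irrefl, if_false, if_true, Nat.lt_succ_self]
          omega
        · have h5 : ¬ c < m := by omega
          simp only [h3, h4, h5, if_false]
          omega
    · have h3 : ¬ c + 1 < m := by omega
      have h4 : ¬ m = c + 1 := by omega
      simp only [h1, h3, h4, if_false]
      omega

/-- the shift -/
def sh (R a : ℕ) (w : List ℕ) : List ℕ := w.map fun x => (x + a) % R

theorem sh_inj {R a : ℕ} {w w' : List ℕ} (h : ∀ c ∈ w, c < R) (h' : ∀ c ∈ w', c < R)
    (e : sh R a w = sh R a w') : w = w' := by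
  induction w generalizing w' with
  | nil =>
    cases w' with
    | nil => rfl
    | cons y w' => simp [sh] at e
  | cons x w ih =>
    cases w' with
    | nil => simp [sh] at e
    | cons y w' =>
      simp only [sh, List.map_cons, List.cons.injEq] at e
      obtain ⟨e1, e2⟩ := e
      have hx : x < R := h x List.mem_cons_self
      have hy : y < R := h' y List.mem_cons_self
      have h3 : x ≡ y [MOD R] := Nat.ModEq.add_right_cancel' a e1
      have h4 : x = y := by
        have := h3
        unfold Nat.ModEq at this
        rwa [Nat.mod_eq_of_lt hx, Nat.mod_eq_of_lt hy] at this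
      have h5 : w = w' := ih (fun c hc => h c (List.mem_cons_of_mem _ hc))
        (fun c hc => h' c (List.mem_cons_of_mem _ hc)) e2
      rw [h4, h5]

theorem count_sh_succ {R : ℕ} (a c : ℕ) (hc : c + 1 < R) (w : List ℕ) :
    (sh R (a + 1) w).count (c + 1) = (sh R a w).count c := by
  induction w with
  | nil => simp [sh]
  | cons x w ih =>
    have key : ((x + (a + 1)) % R = c + 1) ↔ ((x + a) % R = c) := by
      have h1 : c % R = c := Nat.mod_eq_of_lt (by omega)
      have h2 : (c + 1) % R = c + 1 := Nat.mod_eq_of_lt hc
      constructor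
      · intro h
        have h3 : x + a + 1 ≡ c + 1 [MOD R] := by
          unfold Nat.ModEq
          rw [h2, ← h]
          congr 1
        have h4 : x + a ≡ c [MOD R] := Nat.ModEq.add_right_cancel' 1 h3
        unfold Nat.ModEq at h4
        rw [h4, h1]
      · intro h
        have h4 : x + a ≡ c [MOD R] := by
          unfold Nat.ModEq
          rw [h, h1]
        have h3 : x + a + 1 ≡ c + 1 [MOD R] := Nat.ModEq.add_right 1 h4
        unfold Nat.ModEq at h3
        rw [h2] at h3
        rw [← h3]
        congr 1
    simp only [sh, List.map_cons, List.count_cons, beq_iff_eq] at ih ⊢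
    rw [ih]
    by_cases h : (x + a) % R = c
    · rw [if_pos h, if_pos (key.2 h)]
    · rw [if_neg h, if_neg (fun h' => h (key.1 h'))]

theorem sum_ind {R N x c : ℕ} (hx : x < R) (hc : c < R) :
    (∑ i ∈ range (N * R), if (x + i) % R = c then 1 else 0) = N := by
  rw [← Finset.card_filter, ← Nat.count_eq_card_filter_range]
  have hR : 0 < R := by omega
  have h1 : Nat.count (fun i => (x + i) % R = c) (N * R) =
      Nat.count (fun i => i ≡ c + (R - x) [MOD R]) (N * R) := by
    rw [Nat.count_eq_card_filter_range, Nat.count_eq_card_filter_range]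
    congr 1
    apply Finset.filter_congr
    intro i _
    have e : x + (c + (R - x)) = c + R := by omega
    have h1 : c % R = c := Nat.mod_eq_of_lt hc
    constructor
    · intro h
      have h3 : x + i ≡ x + (c + (R - x)) [MOD R] := by
        unfold Nat.ModEq
        rw [e, Nat.add_mod_right, h1, h]
      exact Nat.ModEq.add_left_cancel' x h3
    · intro h
      have h3 : x + i ≡ x + (c + (R - x)) [MOD R] := Nat.ModEq.add_left x h
      unfold Nat.ModEq at h3
      rw [e, Nat.add_mod_right, h1] at h3
      exact h3
  rw [h1, Nat.count_modEq_card _ hR]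
  simp [Nat.mul_div_cancel _ hR]

theorem sum_count_sh {R N c : ℕ} (hc : c < R) (w : List ℕ) (hw : ∀ x ∈ w, x < R) :
    ∑ i ∈ range (N * R), (sh R i w).count c = N * w.length := by
  induction w with
  | nil => simp [sh]
  | cons x w ih =>
    have h1 := ih (fun y hy => hw y (List.mem_cons_of_mem _ hy))
    simp only [sh, List.map_cons, List.count_cons, beq_iff_eq, List.length_cons] at h1 ⊢
    rw [Finset.sum_add_distrib, h1, sum_ind (hw x List.mem_cons_self) hc]
    ring

/-- the words after `j` pieces -/
def GG (L R : ℕ) (F : Finset (List ℕ)) : ℕ → Finset (List ℕ)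
  | 0 => {buf L R R}
  | j + 1 => (GG L R F j ×ˢ F).image fun p => p.1 ++ sh R j p.2

theorem GG_spec {R L : ℕ} (hR : 1 ≤ R) (F : Finset (List ℕ)) (w0 : List ℕ) (hw0 : w0.length = L)
    (hwR : ∀ c ∈ w0, c < R) (hF : ∀ w ∈ F, w.length = L ∧ ∀ c ∈ w, c < R)
    (hc : ∀ w ∈ F, ∀ c, w.count c = w0.count c) (j : ℕ) :
    ∀ u ∈ GG L R F j, lat u ∧ (∀ c ∈ u, c < R) ∧
      (∀ c < R, u.count c = L * (R - 1 - c) + ∑ i ∈ range j, (sh R i w0).count c) ∧
      u.length = (buf L R R).length + j * L := by
  induction j with
  | zero =>
    intro u hu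
    rw [GG, Finset.mem_singleton] at hu
    subst hu
    refine ⟨lat_buf _ _ _, ?_, ?_, by simp⟩
    · intro c hc
      by_contra hcc
      have h1 : (buf L R R).count c = 0 := by
        rw [count_buf, if_neg hcc]
      exact (List.count_eq_zero.1 h1) hc
    · intro c hc
      rw [count_buf, if_pos hc]
      simp
  | succ j ih =>
    intro u hu
    rw [GG, Finset.mem_image] at hu
    obtain ⟨⟨v, w⟩, hvw, rfl⟩ := hu
    rw [Finset.mem_product] at hvw
    obtain ⟨hv, hw⟩ := hvw
    simp only at hv hw
    obtain ⟨h1, h2, h3, h4⟩ := ih v hv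
    have hperm : List.Perm (sh R j w) (sh R j w0) :=
      List.Perm.map _ (List.perm_iff_count.2 (hc w hw))
    have hcount : ∀ c, (sh R j w).count c = (sh R j w0).count c := fun c =>
      List.perm_iff_count.1 hperm c
    have hshlt : ∀ c ∈ sh R j w, c < R := by
      intro c hcc
      simp only [sh, List.mem_map] at hcc
      obtain ⟨x, _, rfl⟩ := hcc
      exact Nat.mod_lt _ (by omega)
    refine ⟨?_, ?_, ?_, ?_⟩
    · refine lat_append h1 (LA_bulk ?_)
      intro c
      by_cases hcR : c + 1 < R
      · rw [h3 (c + 1) hcR, h3 c (by omega), hcount, add_assoc, ← Finset.sum_range_succ,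
          Finset.sum_range_succ']
        have e : ∀ i ∈ range j, (sh R (i + 1) w0).count (c + 1) = (sh R i w0).count c :=
          fun i _ => count_sh_succ i c hcR w0
        rw [Finset.sum_congr rfl e]
        have h5 : (sh R 0 w0).count (c + 1) ≤ L := by
          refine List.count_le_length.trans ?_
          rw [sh, List.length_map, hw0]
        have h6 : L * (R - 1 - c) = L * (R - 1 - (c + 1)) + L := by
          have : R - 1 - c = (R - 1 - (c + 1)) + 1 := by omega
          rw [this]; ring
        omega
      · have h5 : v.count (c + 1) = 0 := by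
          rw [List.count_eq_zero]
          intro h
          exact hcR (h2 _ h)
        have h6 : (sh R j w).count (c + 1) = 0 := by
          rw [List.count_eq_zero]
          intro h
          exact hcR (hshlt _ h)
        show v.count (c + 1) + (sh R j w).count (c + 1) ≤ v.count c
        rw [h5, h6]
        exact Nat.zero_le _
    · intro c hcc
      rcases List.mem_append.1 hcc with h | h
      · exact h2 c h
      · exact hshlt c h
    · intro c hcc
      simp only [List.count_append]
      rw [h3 c hcc, hcount, Finset.sum_range_succ, add_assoc]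
    · simp only [List.length_append, sh, List.length_map]
      rw [h4, (hF w hw).1]
      ring

theorem GG_card {R L : ℕ} (hR : 1 ≤ R) (F : Finset (List ℕ)) (w0 : List ℕ) (hw0 : w0.length = L)
    (hwR : ∀ c ∈ w0, c < R) (hF : ∀ w ∈ F, w.length = L ∧ ∀ c ∈ w, c < R)
    (hc : ∀ w ∈ F, ∀ c, w.count c = w0.count c) (j : ℕ) :
    (GG L R F j).card = F.card ^ j := by
  induction j with
  | zero => simp [GG]
  | succ j ih =>
    rw [GG, Finset.card_image_of_injOn, Finset.card_product, ih, pow_succ]
    rintro ⟨v, w⟩ h1 ⟨v', w'⟩ h2 h
    rw [Finset.mem_coe, Finset.mem_product] at h1 h2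
    obtain ⟨hv, hw⟩ := h1
    obtain ⟨hv', hw'⟩ := h2
    simp only at hv hw hv' hw' h
    have l1 := (GG_spec hR F w0 hw0 hwR hF hc j v hv).2.2.2
    have l2 := (GG_spec hR F w0 hw0 hwR hF hc j v' hv').2.2.2
    have h3 := List.append_inj h (l1.trans l2.symm)
    have h4 := sh_inj (hF w hw).2 (hF w' hw').2 h3.2
    rw [h3.1, h4]

theorem pf_LW : T_LW := by
  intro R L N F hR hF hFc
  obtain ⟨w0, hw0, hwR, hc⟩ : ∃ w0 : List ℕ, w0.length = L ∧ (∀ c ∈ w0, c < R) ∧
      ∀ w ∈ F, ∀ c, w.count c = w0.count c := by
    by_cases hne : F.Nonempty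
    · obtain ⟨w0, h0⟩ := hne
      exact ⟨w0, (hF w0 h0).1, (hF w0 h0).2, fun w hw c => hFc w hw w0 h0 c⟩
    · refine ⟨List.replicate L 0, by simp, ?_, ?_⟩
      · intro c hcc
        have := List.eq_of_mem_replicate hcc
        omega
      · intro w hw
        exact absurd ⟨w, hw⟩ hne
  refine ⟨(GG L R F (N * R)).image fun u => u ++ comp L R, ?_, ?_⟩
  · intro l hl
    rw [Finset.mem_image] at hl
    obtain ⟨u, hu, rfl⟩ := hl
    obtain ⟨h1, h2, h3, h4⟩ := GG_spec hR F w0 hw0 hwR hF hc (N * R) u hu
    have h5 : ∀ c, u.count c = if c < R then L * (R - 1 - c) + L * N else 0 := by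
      intro c
      by_cases hcR : c < R
      · rw [if_pos hcR, h3 c hcR, sum_count_sh hcR w0 hwR, hw0, mul_comm N L]
      · rw [if_neg hcR, List.count_eq_zero]
        intro h
        exact hcR (h2 _ h)
    refine ⟨lat_append h1 (LA_comp L R N _ h5 R le_rfl), ?_, ?_⟩
    · intro c hcc
      rcases List.mem_append.1 hcc with h | h
      · exact h2 c h
      · by_contra hn
        have h6 : (comp L R).count c = 0 := by
          rw [count_comp, if_neg hn]
        exact (List.count_eq_zero.1 h6) h
    · intro c hcR
      rw [List.count_append, h5, count_comp, if_pos hcR, if_pos hcR]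
      have e : N + R - 1 = (R - 1 - c) + N + c := by omega
      rw [e]; ring
  · rw [Finset.card_image_of_injective _ (fun a b h => List.append_cancel_right h),
      GG_card hR F w0 hw0 hwR hF hc]

end Pool.Agent.H27.STK
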