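import Pool.Agent.H47.ST.Targets

namespace Pool.Agent.H27.STK

open Finset Pool.Agent.H47.ST

/-- decreasing lists split at the length `c` -/
theorem ri_split (V : List (List ℕ)) (h : V.Pairwise (fun A B => B.length ≤ A.length)) (c : ℕ) :
    ∃ V1 V2, V = V1 ++ V2 ∧ (∀ B ∈ V1, c < B.length) ∧ (∀ B ∈ V2, B.length ≤ c) ∧
      V1.length = (V.filter fun B => decide (c < B.length)).length := by
  induction V with
  | nil => exact ⟨[], [], rfl, by simp, by simp, by simp⟩
  | cons A V ih =>
    rw [List.pairwise_cons] at h
    obtain ⟨h1, h2⟩ := h
    by_cases hA : c < A.length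
    · obtain ⟨V1, V2, e, a1, a2, a3⟩ := ih h2
      refine ⟨A :: V1, V2, by rw [e]; rfl, ?_, a2, ?_⟩
      · intro B hB
        rcases List.mem_cons.1 hB with h | h
        · rw [h]; exact hA
        · exact a1 B h
      · rw [List.filter_cons_of_pos (by simpa using hA), List.length_cons, List.length_cons, a3]
    · refine ⟨[], A :: V, rfl, by simp, ?_, ?_⟩
      · intro B hB
        rcases List.mem_cons.1 hB with h | h
        · rw [h]; omega
        · have := h1 B h
          omega
      · have : (A :: V).filter (fun B => decide (c < B.length)) = [] := by
          rw [List.filter_eq_nil_iff]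
          intro B hB
          rcases List.mem_cons.1 hB with h | h
          · rw [h]; simpa using hA
          · have := h1 B h
            simp only [decide_eq_true_eq, not_lt]
            omega
        rw [this]

/-- the letters `≥ v + 1` of the new row are the letters `≥ v` of the old one -/
def EE (A A' : List ℕ) : Prop := ∀ v, (A'.filter fun x => decide (v + 1 ≤ x)).length =
  (A.filter fun x => decide (v ≤ x)).length

theorem EE_map (A : List ℕ) : EE A (A.map Nat.succ) := by
  intro v
  rw [List.filter_map, List.length_map]
  congr 1
  apply List.filter_congr
  intro x _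
  simp

theorem EE_ins (A : List ℕ) (p : ℕ) : EE A ((A.take p).map Nat.succ ++ 0 :: (A.drop p).map Nat.succ) := by
  intro v
  rw [List.filter_append, List.filter_cons_of_neg (by simp), List.length_append, EE_map, EE_map,
    ← List.length_append, ← List.filter_append, List.take_append_drop]

theorem dom_EE {A B A' B' : List ℕ} (h : dom A B) (hA : EE A A') (hB : EE B B')
    (hl : B'.length ≤ A'.length) : dom A' B' := by
  intro v
  cases v with
  | zero =>
    have e : ∀ l : List ℕ, l.filter (fun x => decide (0 ≤ x)) = l := by
      intro l
      rw [List.filter_eq_self]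
      intro x _
      simp
    rw [e, e]; exact hl
  | succ v => rw [hA, hB]; exact h v

theorem RInv_step {k : ℕ} {l : List ℕ} {V1 V3 : List (List ℕ)} {B0 : List ℕ} {c p : ℕ}
    (hV : RInv k l (V1 ++ B0 :: V3)) (h1 : ∀ B ∈ V1, c < B.length) (h0 : B0.length = c)
    (hp : p < max c 1) :
    RInv k (c :: l) (vpl (V1, B0.take p, B0.drop p, V3)) := by
  obtain ⟨a1, a2, a3, a4, a5, a6⟩ := hV
  have hlen0 : ((B0.take p).map Nat.succ ++ 0 :: (B0.drop p).map Nat.succ).length = c + 1 := by
    rw [List.length_append, List.length_cons, List.length_map, List.length_map]
    have : ((B0.take p) ++ (B0.drop p)).length = c := by rw [List.take_append_drop, h0]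
    rw [List.length_append] at this
    omega
  rw [List.pairwise_append, List.pairwise_cons] at a4 a6
  obtain ⟨b1, ⟨b2, b3⟩, b4⟩ := a4
  obtain ⟨d1, ⟨d2, d3⟩, d4⟩ := a6
  unfold vpl
  simp only
  refine ⟨?_, ?_, ?_, ?_, ?_, ?_⟩
  · rw [← a1]; simp
  · rw [List.length_cons, List.range_succ_eq_map]
    have e1 : (List.map (List.map Nat.succ) V1 ++
        (List.map Nat.succ (B0.take p) ++ 0 :: List.map Nat.succ (B0.drop p)) ::
          List.map (List.map Nat.succ) V3).flatten.Perm
        (0 :: (V1 ++ B0 :: V3).flatten.map Nat.succ) := by
      rw [List.flatten_append, List.flatten_cons, List.flatten_append, List.flatten_cons,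
        List.map_append, List.map_append, List.map_flatten, List.map_flatten]
      have e2 : List.map Nat.succ B0 = List.map Nat.succ (B0.take p) ++
          List.map Nat.succ (B0.drop p) := by
        rw [← List.map_append, List.take_append_drop]
      rw [e2]
      have e5 := List.perm_middle (a := 0)
        (l₁ := (List.map (List.map Nat.succ) V1).flatten ++ List.map Nat.succ (List.take p B0))
        (l₂ := List.map Nat.succ (List.drop p B0) ++ (List.map (List.map Nat.succ) V3).flatten)
      simpa only [List.append_assoc, List.cons_append] using e5
    exact e1.trans ((List.Perm.map _ a2).cons 0)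
  · intro c'
    have e1 := a3 c'
    rw [List.filter_append, List.length_append] at e1 ⊢
    have e2 : ∀ W : List (List ℕ), ((W.map (List.map Nat.succ)).filter
        (fun B => decide (c' < B.length))).length =
        (W.filter fun B => decide (c' < B.length)).length := by
      intro W
      rw [List.filter_map, List.length_map]
      congr 1
      apply List.filter_congr
      intro x _
      simp
    rw [e2, List.count_cons]
    by_cases h2 : c' < c
    · rw [List.filter_cons_of_pos (by simp; omega), List.length_cons] at e1
      rw [List.filter_cons_of_pos (by simp only [decide_eq_true_eq]; rw [hlen0]; omega),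
        List.length_cons, e2]
      have h3 : ¬ (c == c') = true := by simp; omega
      rw [if_neg h3]
      omega
    · rw [List.filter_cons_of_neg (by simp; omega)] at e1
      by_cases h3 : c = c'
      · rw [List.filter_cons_of_pos (by simp only [decide_eq_true_eq]; rw [hlen0]; omega),
          List.length_cons, e2]
        have h4 : (c == c') = true := by simp; omega
        rw [if_pos h4]
        omega
      · rw [List.filter_cons_of_neg (by simp only [decide_eq_true_eq]; rw [hlen0]; omega), e2]
        have h4 : ¬ (c == c') = true := by simp; omega
        rw [if_neg h4]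
        omega
  · rw [List.pairwise_append, List.pairwise_cons]
    refine ⟨?_, ⟨?_, ?_⟩, ?_⟩
    · rw [List.pairwise_map]
      refine b1.imp ?_
      intro A B h
      rw [List.length_map, List.length_map]; exact h
    · intro B hB
      rw [List.mem_map] at hB
      obtain ⟨B', hB', rfl⟩ := hB
      have := b2 B' hB'
      rw [hlen0, List.length_map]
      omega
    · rw [List.pairwise_map]
      refine b3.imp ?_
      intro A B h
      rw [List.length_map, List.length_map]; exact h
    · intro A hA B hB
      rw [List.mem_map] at hA
      obtain ⟨A', hA', rfl⟩ := hA
      have hA2 := h1 A' hA'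
      rw [List.length_map]
      rcases List.mem_cons.1 hB with h | h
      · rw [h, hlen0]; omega
      · rw [List.mem_map] at h
        obtain ⟨B', hB', rfl⟩ := h
        rw [List.length_map]
        exact b4 A' hA' B' (List.mem_cons_of_mem _ hB')
  · have e3 : ∀ B : List ℕ, (∀ x ∈ B, ∀ y ∈ B.getLast?, x ≤ y) →
        ∀ x ∈ B.map Nat.succ, ∀ y ∈ (B.map Nat.succ).getLast?, x ≤ y := by
      intro B h x hx y hy
      rw [List.getLast?_map] at hy
      rw [Option.mem_map] at hy
      obtain ⟨y', hy', rfl⟩ := hy
      rw [List.mem_map] at hx
      obtain ⟨x', hx', rfl⟩ := hx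
      exact Nat.succ_le_succ (h x' hx' y' hy')
    intro B hB
    rcases List.mem_append.1 hB with h | h
    · rw [List.mem_map] at h
      obtain ⟨B', hB', rfl⟩ := h
      exact e3 B' (a5 B' (List.mem_append_left _ hB'))
    rcases List.mem_cons.1 h with h | h
    · rw [h]
      intro x hx y hy
      by_cases hc : c = 0
      · have hB0 : B0 = [] := List.length_eq_zero_iff.1 (by omega)
        subst hB0
        simp at hx
        omega
      · have hp' : p < c := by
          have : max c 1 = c := by omega
          rwa [this] at hp
        have hdrop : B0.drop p ≠ [] := by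
          intro hn
          have := congrArg List.length hn
          rw [List.length_drop, List.length_nil] at this
          omega
        have e4 : ((B0.take p).map Nat.succ ++ 0 :: (B0.drop p).map Nat.succ).getLast? =
            (B0.map Nat.succ).getLast? := by
          have e5 : B0.map Nat.succ = (B0.take p).map Nat.succ ++ (B0.drop p).map Nat.succ := by
            rw [← List.map_append, List.take_append_drop]
          rw [e5]
          obtain ⟨z, zs, hz⟩ := List.exists_cons_of_ne_nil hdrop
          rw [hz, List.map_cons, List.getLast?_append, List.getLast?_append,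
            List.getLast?_cons_cons]
        rw [e4] at hy
        rcases List.mem_append.1 hx with hx | hx
        · refine e3 B0 (a5 B0 (List.mem_append_right _ List.mem_cons_self)) x ?_ y hy
          rw [List.mem_map] at hx ⊢
          obtain ⟨x', hx', e⟩ := hx
          exact ⟨x', List.mem_of_mem_take hx', e⟩
        · rcases List.mem_cons.1 hx with hx | hx
          · rw [hx]; exact Nat.zero_le _
          · refine e3 B0 (a5 B0 (List.mem_append_right _ List.mem_cons_self)) x ?_ y hy
            rw [List.mem_map] at hx ⊢
            obtain ⟨x', hx', e⟩ := hx
            exact ⟨x', List.mem_of_mem_drop hx', e⟩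
    · rw [List.mem_map] at h
      obtain ⟨B', hB', rfl⟩ := h
      exact e3 B' (a5 B' (List.mem_append_right _ (List.mem_cons_of_mem _ hB')))
  · rw [List.pairwise_append, List.pairwise_cons]
    refine ⟨?_, ⟨?_, ?_⟩, ?_⟩
    · rw [List.pairwise_map]
      refine (b1.and d1).imp ?_
      rintro A B ⟨hl, hd⟩
      exact dom_EE hd (EE_map A) (EE_map B) (by rw [List.length_map, List.length_map]; exact hl)
    · intro B hB
      rw [List.mem_map] at hB
      obtain ⟨B', hB', rfl⟩ := hB
      refine dom_EE (d2 B' hB') (EE_ins B0 p) (EE_map B') ?_
      have := b2 B' hB'
      rw [hlen0, List.length_map]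
      omega
    · rw [List.pairwise_map]
      refine (b3.and d3).imp ?_
      rintro A B ⟨hl, hd⟩
      exact dom_EE hd (EE_map A) (EE_map B) (by rw [List.length_map, List.length_map]; exact hl)
    · intro A hA B hB
      rw [List.mem_map] at hA
      obtain ⟨A', hA', rfl⟩ := hA
      have hA2 := h1 A' hA'
      rcases List.mem_cons.1 hB with h | h
      · rw [h]
        refine dom_EE (d4 A' hA' B0 List.mem_cons_self) (EE_map A') (EE_ins B0 p) ?_
        rw [hlen0, List.length_map]; omega
      · rw [List.mem_map] at h
        obtain ⟨B', hB', rfl⟩ := h
        refine dom_EE (d4 A' hA' B' (List.mem_cons_of_mem _ hB')) (EE_map A') (EE_map B') ?_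
        rw [List.length_map, List.length_map]
        exact b4 A' hA' B' (List.mem_cons_of_mem _ hB')

theorem pf_RI : T_RI := by
  intro k l
  induction l with
  | nil =>
    intro _ _ V hV
    rw [Rch, Finset.mem_singleton] at hV
    subst hV
    refine ⟨by simp, ?_, ?_, ?_, ?_, ?_⟩
    · simp
    · intro c
      rw [List.count_nil, List.length_eq_zero_iff, List.filter_eq_nil_iff]
      intro B hB
      rw [List.eq_of_mem_replicate hB]
      simp
    · rw [List.pairwise_replicate]; right; exact le_rfl
    · intro B hB
      rw [List.eq_of_mem_replicate hB]
      intro x hx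
      simp at hx
    · rw [List.pairwise_replicate]; right
      intro v
      exact le_rfl
  | cons c l ih =>
    intro hlat h0 V hV
    rw [List.reverse_cons] at hlat
    have hlat' : lat l.reverse := by
      intro u v huv
      exact hlat u (v ++ [c]) (by rw [huv, List.append_assoc])
    have h0' : l.count 0 ≤ k := by
      rw [List.count_cons] at h0
      omega
    rw [Rch, Finset.mem_biUnion] at hV
    obtain ⟨V', hV', hV⟩ := hV
    rw [Finset.mem_image] at hV
    obtain ⟨p, hp, rfl⟩ := hV
    rw [Finset.mem_range] at hp
    have hI := ih hlat' h0' V' hV'
    obtain ⟨V1, V2, e, a1, a2, a3⟩ := ri_split V' hI.2.2.2.1 c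
    -- a row of length `c`
    have hcount : ∀ c', ((V'.filter fun B => decide (c' < B.length)).length) = l.count c' :=
      hI.2.2.1
    have hex : ∃ B0 V3, V2 = B0 :: V3 ∧ B0.length = c := by
      cases hV2 : V2 with
      | nil =>
        exfalso
        rw [hV2, List.append_nil] at e
        rw [← e, hcount] at a3
        by_cases hc : c = 0
        · subst hc
          rw [List.count_cons] at h0
          simp only [beq_self_eq_true, if_true] at h0
          have := hI.1
          omega
        · have h2 := hlat (l.reverse ++ [c]) [] (by simp) (c - 1)
          have hc1 : c - 1 + 1 = c := by omega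
          rw [hc1, List.count_append, List.count_append, List.count_reverse,
            List.count_reverse] at h2
          have h3 : [c].count c = 1 := by simp
          have h4 : [c].count (c - 1) = 0 := by
            rw [List.count_eq_zero]; simp; omega
          have h5 : l.count (c - 1) ≤ V'.length := by
            rw [← hcount]
            exact List.length_filter_le _ _
          omega
      | cons B0 V3 =>
        refine ⟨B0, V3, rfl, ?_⟩
        have hB0 : B0.length ≤ c := a2 B0 (by rw [hV2]; exact List.mem_cons_self)
        by_contra hne
        have hlt : B0.length < c := by omega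
        have h2 := hlat (l.reverse ++ [c]) [] (by simp) (c - 1)
        have hc1 : c - 1 + 1 = c := by omega
        rw [hc1, List.count_append, List.count_append, List.count_reverse,
          List.count_reverse] at h2
        have h3 : [c].count c = 1 := by simp
        have h4 : [c].count (c - 1) = 0 := by
          rw [List.count_eq_zero]; simp; omega
        have h5 : l.count (c - 1) ≤ V1.length := by
          rw [← hcount, e, List.filter_append, List.length_append]
          have h6 : V2.filter (fun B => decide (c - 1 < B.length)) = [] := by
            rw [List.filter_eq_nil_iff]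
            intro B hB
            have hpw := hI.2.2.2.1
            rw [e, List.pairwise_append, hV2, List.pairwise_cons] at hpw
            rw [hV2] at hB
            simp only [decide_eq_true_eq, not_lt]
            rcases List.mem_cons.1 hB with h | h
            · rw [h]; omega
            · have := hpw.2.1.1 B h
              omega
          rw [h6, List.length_nil, add_zero]
          exact List.length_filter_le _ _
        rw [hcount] at a3
        omega
    obtain ⟨B0, V3, hV2, hB0⟩ := hex
    have hs : smv V' c p = vpl (V1, B0.take p, B0.drop p, V3) := by
      unfold smv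
      simp only
      rw [← a3, e, hV2]
      have e1 : (V1 ++ B0 :: V3).take V1.length = V1 := by simp
      have e2 : (V1 ++ B0 :: V3).getD V1.length [] = B0 := by simp
      have e3 : (V1 ++ B0 :: V3).drop (V1.length + 1) = V3 := by
        simp
      rw [e1, e2, e3]
    rw [hs]
    rw [e, hV2] at hI
    exact RInv_step hI a1 hB0 hp

end Pool.Agent.H27.STK
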